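import Pool.Agent.Helper49.Cyl.Defs

/-!
# The Berman-Hartmanis theorem for an arbitrary class `C`

Two cylinders that are many-one equivalent are p-isomorphic.
-/

namespace Pool.Agent.Cyl

open Pool.Agent.PolyTime Pool.Agent.RelPoly

variable {C : PCl}

/-- a string of `true`s of length `(3 |x| + 2) ^ k`-/
theorem PT.ones (k : ℕ) : PT C (fun x : List Bool => (List.replicate ((size x + 2) ^ k) ()).map
    (fun _ => true)) :=
  PT.map (g := fun _ _ => true) (PT.unaryPad k) (by fun_prop)

theorem PIso.refl (A : Set (List Bool)) : PIso C A A :=
  ⟨Equiv.refl _, PT.id, PT.id, fun _ => Iff.rfl⟩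

/-- a reduction to a cylinder can be made p-invertible and length increasing -/
theorem exists_inv_red {A B : Set (List Bool)} (hB : Cylinder C B)
    (h : ∃ f : List Bool → List Bool, PT C f ∧ ∀ x, x ∈ A ↔ f x ∈ B) :
    ∃ F G : List Bool → List Bool, PT C F ∧ PT C G ∧ (∀ x, G (F x) = x) ∧
      (∀ x, x.length < (F x).length) ∧ ∀ x, x ∈ A ↔ F x ∈ B := by
  obtain ⟨p, g, hp, hg, hgp, hpB⟩ := hB
  obtain ⟨f, hf, hfB⟩ := h
  obtain ⟨k, hk⟩ := hg.pbd
  let u : List Bool → List Bool := fun x =>
    (List.replicate ((size x + 2) ^ k) ()).map (fun _ => true)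
  have hu : PT C u := PT.ones k
  have hul : ∀ x, (u x).length = (size x + 2) ^ k := fun x => by simp [u]
  refine ⟨fun x => p (f x, pr x (u x)), fun z => PolyTime.p1 (g z).2, ?_, ?_, ?_, ?_, ?_⟩
  · exact hp.comp (hf.prodMk (PT.pr PT.id hu))
  · exact PT.p1 hg.snd
  · intro x
    simp only [hgp, p1_pr]
  · intro x
    by_contra hlt
    push Not at hlt
    have h1 := hk (p (f x, pr x (u x)))
    dsimp only at h1
    rw [hgp, size_pair, size_list_bool, size_list_bool, size_list_bool, length_pr, hul] at h1
    have h2 : (3 * (p (f x, pr x (u x))).length + 2) ^ k ≤ (size x + 2) ^ k := by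
      apply Nat.pow_le_pow_left
      rw [size_list_bool]
      omega
    omega
  · intro x
    rw [hfB, hpB]

section bh

variable (F GF H GH : List Bool → List Bool)

/-- One step of following the chain of preimages back. -/
def bhStep (s : List Bool × Option Bool) : List Bool × Option Bool :=
  if s.2.isSome = true then s
  else if H (GH s.1) = s.1 then
    (if F (GF (GH s.1)) = GH s.1 then (GF (GH s.1), none) else (s.1, some false))
  else (s.1, some true)

theorem pt_bhStep (hF : PT C F) (hGF : PT C GF) (hH : PT C H) (hGH : PT C GH) :
    PT C (bhStep F GF H GH) := by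
  have h1 : PT C (fun s : List Bool × Option Bool => GH s.1) := hGH.comp PT.fst'
  have h2 : PT C (fun s : List Bool × Option Bool => H (GH s.1)) := hH.comp h1
  have h3 : PT C (fun s : List Bool × Option Bool => GF (GH s.1)) := hGF.comp h1
  have h4 : PT C (fun s : List Bool × Option Bool => F (GF (GH s.1))) := hF.comp h3
  unfold bhStep
  refine PT.ite (by fun_prop) PT.id (PT.ite (by fun_prop) (PT.ite (by fun_prop) ?_ ?_) ?_)
  all_goals fun_prop

variable {F GF H GH}

theorem bhStep_some (x : List Bool) (b : Bool) (n : ℕ) :
    (bhStep F GF H GH)^[n] (x, some b) = (x, some b) := by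
  apply Function.iterate_fixed
  simp [bhStep]

/-- the chain starting at `x` stops on the first side -/
noncomputable def side (F GF H GH : List Bool → List Bool) (x : List Bool) : Bool :=
  (((bhStep F GF H GH)^[x.length + 1] (x, none)).2).getD true

theorem iter_decided (hF : ∀ x, x.length < (F x).length) (hH : ∀ x, x.length < (H x).length) :
    ∀ (m : ℕ) (x : List Bool), x.length ≤ m →
    ∃ b, ∀ n, x.length < n → ((bhStep F GF H GH)^[n] (x, none)).2 = some b := by
  intro m
  induction m with
  | zero =>
    intro x hx
    have hx0 : x = [] := List.length_eq_zero_iff.1 (by omega)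
    subst hx0
    refine ⟨true, fun n hn => ?_⟩
    obtain ⟨n, rfl⟩ := Nat.exists_eq_succ_of_ne_zero (Nat.pos_iff_ne_zero.1 hn)
    rw [Function.iterate_succ_apply]
    have h1 : H (GH []) ≠ [] := by
      intro h
      have := hH (GH [])
      rw [h] at this
      simp at this
    have h2 : bhStep F GF H GH ([], none) = ([], some true) := by simp [bhStep, h1]
    rw [h2, bhStep_some]
  | succ m ih =>
    intro x hx
    by_cases h1 : H (GH x) = x
    · by_cases h2 : F (GF (GH x)) = GH x
      · have h3 : (GF (GH x)).length < x.length := by
          have h4 := hF (GF (GH x))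
          have h5 := hH (GH x)
          rw [h2] at h4
          rw [h1] at h5
          omega
        obtain ⟨b, hb⟩ := ih (GF (GH x)) (by omega)
        refine ⟨b, fun n hn => ?_⟩
        obtain ⟨n, rfl⟩ := Nat.exists_eq_succ_of_ne_zero (n := n) (by omega)
        rw [Function.iterate_succ_apply]
        have h4 : bhStep F GF H GH (x, none) = (GF (GH x), none) := by simp [bhStep, h1, h2]
        rw [h4]
        exact hb n (by omega)
      · refine ⟨false, fun n hn => ?_⟩
        obtain ⟨n, rfl⟩ := Nat.exists_eq_succ_of_ne_zero (n := n) (by omega)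
        rw [Function.iterate_succ_apply]
        have h4 : bhStep F GF H GH (x, none) = (x, some false) := by simp [bhStep, h1, h2]
        rw [h4, bhStep_some]
    · refine ⟨true, fun n hn => ?_⟩
      obtain ⟨n, rfl⟩ := Nat.exists_eq_succ_of_ne_zero (n := n) (by omega)
      rw [Function.iterate_succ_apply]
      have h4 : bhStep F GF H GH (x, none) = (x, some true) := by simp [bhStep, h1]
      rw [h4, bhStep_some]

theorem side_eq (hF : ∀ x, x.length < (F x).length) (hH : ∀ x, x.length < (H x).length)
    (x : List Bool) :
    side F GF H GH x = if H (GH x) = x then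
      (if F (GF (GH x)) = GH x then side F GF H GH (GF (GH x)) else false) else true := by
  by_cases h1 : H (GH x) = x
  · by_cases h2 : F (GF (GH x)) = GH x
    · rw [if_pos h1, if_pos h2]
      have h3 : (GF (GH x)).length < x.length := by
        have h4 := hF (GF (GH x))
        have h5 := hH (GH x)
        rw [h2] at h4
        rw [h1] at h5
        omega
      unfold side
      rw [Function.iterate_succ_apply]
      have h4 : bhStep F GF H GH (x, none) = (GF (GH x), none) := by simp [bhStep, h1, h2]
      rw [h4]
      obtain ⟨b, hb⟩ := iter_decided (F := F) (GF := GF) (H := H) (GH := GH) hF hH _ _ (le_refl (GF (GH x)).length)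
      rw [hb _ h3, hb _ (Nat.lt_succ_self _)]
    · rw [if_pos h1, if_neg h2]
      unfold side
      rw [Function.iterate_succ_apply]
      have h4 : bhStep F GF H GH (x, none) = (x, some false) := by simp [bhStep, h1, h2]
      rw [h4, bhStep_some]
      rfl
  · rw [if_neg h1]
    unfold side
    rw [Function.iterate_succ_apply]
    have h4 : bhStep F GF H GH (x, none) = (x, some true) := by simp [bhStep, h1]
    rw [h4, bhStep_some]
    rfl

theorem bhStep_length (hF : ∀ x, x.length < (F x).length) (hH : ∀ x, x.length < (H x).length)
    (s : List Bool × Option Bool) : (bhStep F GF H GH s).1.length ≤ s.1.length := by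
  unfold bhStep
  split_ifs with h0 h1 h2
  · exact le_rfl
  · have h4 := hF (GF (GH s.1))
    have h5 := hH (GH s.1)
    rw [h2] at h4
    rw [h1] at h5
    simp only
    omega
  · exact le_rfl
  · exact le_rfl

theorem pt_side (hF : PT C F) (hGF : PT C GF) (hH : PT C H) (hGH : PT C GH)
    (hF' : ∀ x, x.length < (F x).length) (hH' : ∀ x, x.length < (H x).length) :
    PT C (side F GF H GH) := by
  unfold side
  refine PT.option_getD ?_ (PT.const true)
  refine PT.snd ?_
  refine PT.iterate (f := fun _ s => bhStep F GF H GH s) (n := fun x : List Bool => x.length + 1)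
    (g := fun x : List Bool => (x, (none : Option Bool)))
    (B := fun x => 2 * size x + 1 + 2) ?_ (by fun_prop) ?_ (by fun_prop) ?_ ?_
  · exact (pt_bhStep F GF H GH hF hGF hH hGH).comp PT.snd'
  · exact (pbd_length (C := C) PT.id).add (PBd.const 1)
  · exact (((PBd.const 2).mul PBd.size).add (PBd.const 1)).add (PBd.const 2)
  · intro x i _
    have h1 : ∀ i, ((bhStep F GF H GH)^[i] (x, none)).1.length ≤ x.length := by
      intro i
      induction i with
      | zero => exact le_rfl
      | succ i ih =>
        rw [Function.iterate_succ_apply']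
        exact (bhStep_length hF' hH' _).trans ih
    have h2 : ∀ o : Option Bool, size o ≤ 2 := by
      intro o
      cases o with
      | none => simp
      | some b => simp
    change size ((bhStep F GF H GH)^[i] (x, none)) ≤ _
    rw [size_prod, size_list_bool, size_list_bool]
    have := h1 i
    have := h2 ((bhStep F GF H GH)^[i] (x, none)).2
    omega

end bh

/-- Berman-Hartmanis: many-one equivalent cylinders are p-isomorphic. -/
theorem pIso_of_cylinders {A B : Set (List Bool)} (hA : Cylinder C A) (hB : Cylinder C B)
    (hAB : ∃ f : List Bool → List Bool, PT C f ∧ ∀ x, x ∈ A ↔ f x ∈ B)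
    (hBA : ∃ f : List Bool → List Bool, PT C f ∧ ∀ x, x ∈ B ↔ f x ∈ A) : PIso C A B := by
  obtain ⟨F, GF, hF, hGF, hGF', hFl, hFAB⟩ := exists_inv_red hB hAB
  obtain ⟨H, GH, hH, hGH, hGH', hHl, hHBA⟩ := exists_inv_red hA hBA
  have hs := pt_side hF hGF hH hGH hFl hHl
  have hse := side_eq (GF := GF) (GH := GH) hFl hHl
  let h : List Bool → List Bool := fun x => if side F GF H GH x = true then F x else GH x
  let h' : List Bool → List Bool := fun y =>
    if F (GF y) = y then (if side F GF H GH (GF y) = true then GF y else H y) else H y
  have e1 : ∀ x, h' (h x) = x := by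
    intro x
    by_cases hx : side F GF H GH x = true
    · have h1 : h x = F x := by simp [h, hx]
      rw [h1]
      simp only [h', hGF', hx, if_true]
    · have h1 : h x = GH x := by simp [h, hx]
      rw [h1]
      have hx' : side F GF H GH x = false := by simpa using hx
      have h2 := hse x
      rw [hx'] at h2
      have h3 : H (GH x) = x := by
        by_contra h3
        rw [if_neg h3] at h2
        simp at h2
      rw [if_pos h3] at h2
      simp only [h']
      by_cases h4 : F (GF (GH x)) = GH x
      · rw [if_pos h4] at h2
        rw [if_pos h4, if_neg (by rw [← h2]; simp), h3]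
      · rw [if_neg h4, h3]
  have e2 : ∀ y, h (h' y) = y := by
    intro y
    by_cases h4 : F (GF y) = y
    · by_cases h5 : side F GF H GH (GF y) = true
      · simp only [h', h4, h5, if_true, h]
      · have h6 : h' y = H y := by simp [h', h4, h5]
        rw [h6]
        have h7 := hse (H y)
        rw [hGH', if_pos rfl, if_pos h4] at h7
        have h8 : h (H y) = GH (H y) := by
          simp only [h]
          rw [h7, if_neg h5]
        rw [h8, hGH']
    · have h6 : h' y = H y := by simp [h', h4]
      rw [h6]
      have h7 := hse (H y)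
      rw [hGH', if_pos rfl, if_neg h4] at h7
      have h8 : h (H y) = GH (H y) := by
        simp only [h]
        rw [h7]
        simp
      rw [h8, hGH']
  refine ⟨⟨h, h', e1, e2⟩, ?_, ?_, ?_⟩
  · change PT C h
    exact PT.ite (by fun_prop) hF hGH
  · change PT C h'
    refine PT.ite ?_ (PT.ite ?_ hGF hH) hH
    · exact PT.decideEq (hF.comp hGF) PT.id
    · exact PT.decide_bool (hs.comp hGF)
  · intro x
    change x ∈ A ↔ h x ∈ B
    by_cases hx : side F GF H GH x = true
    · have h1 : h x = F x := by simp [h, hx]
      rw [h1, hFAB]
    · have h1 : h x = GH x := by simp [h, hx]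
      have hx' : side F GF H GH x = false := by simpa using hx
      have h2 := hse x
      rw [hx'] at h2
      have h3 : H (GH x) = x := by
        by_contra h3
        rw [if_neg h3] at h2
        simp at h2
      rw [h1, hHBA, h3]

end Pool.Agent.Cyl
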