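import Pool.Agent.Helper49.Cyl.BH
import Mathlib.Order.Ideal

/-!
# The collapse of all cylindrical 1-degrees: an exact characterisation
-/

namespace Pool.Agent.Cyl

open Pool.Agent.PolyTime Pool.Agent.RelPoly

variable {C : PCl}

/-- The class of `x` generated by `φ₀` and `φ₁`: it contains all `φ₀ (x, y)` and is closed under
`z ↦ φ₁ (z, y)`. -/
inductive Cls (φ₀ φ₁ : List Bool × List Bool → List Bool) (x : List Bool) : List Bool → Prop
  | root (y : List Bool) : Cls φ₀ φ₁ x (φ₀ (x, y))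
  | step (z y : List Bool) : Cls φ₀ φ₁ x z → Cls φ₀ φ₁ x (φ₁ (z, y))

/-- For all one-one functions `φ₀`, `φ₁` in `C` with disjoint ranges there is a p-invertible `ψ`
with `ψ (x, y)` in the class of `x`, for all `y` and all but finitely many `x`. -/
def UniformPadding (C : PCl) : Prop :=
  ∀ φ₀ φ₁ : List Bool × List Bool → List Bool, PT C φ₀ → PT C φ₁ →
    Function.Injective (Sum.elim φ₀ φ₁) →
    ∃ (ψ : List Bool × List Bool → List Bool) (g : List Bool → List Bool × List Bool),
      PT C ψ ∧ PT C g ∧ (∀ x y, g (ψ (x, y)) = (x, y)) ∧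
      {x | ∃ y, ¬ Cls φ₀ φ₁ x (ψ (x, y))}.Finite

theorem Cls.unique {φ₀ φ₁ : List Bool × List Bool → List Bool}
    (hφ : Function.Injective (Sum.elim φ₀ φ₁)) {x x' z : List Bool} (h : Cls φ₀ φ₁ x z)
    (h' : Cls φ₀ φ₁ x' z) : x = x' := by
  induction h with
  | root y =>
    generalize hz : φ₀ (x, y) = w at h'
    cases h' with
    | root y' =>
      have := @hφ (Sum.inl (x, y)) (Sum.inl (x', y')) hz
      simp at this
      exact this.1
    | step z' y' _ =>
      have := @hφ (Sum.inl (x, y)) (Sum.inr (z', y')) hz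
      simp at this
  | step z y _ ih =>
    generalize hz : φ₁ (z, y) = w at h'
    cases h' with
    | root y' =>
      have := @hφ (Sum.inr (z, y)) (Sum.inl (x', y')) hz
      simp at this
    | step z' y' h'' =>
      have := @hφ (Sum.inr (z, y)) (Sum.inr (z', y')) hz
      simp at this
      obtain ⟨rfl, rfl⟩ := this
      exact ih h''

/-! ### a generic set -/

section generic

variable {X : Type} [DecidableEq X]

/-- finite conditions: disjoint finite sets of decided members and non-members -/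
abbrev Cond (X : Type) [DecidableEq X] : Type := {s : Finset X × Finset X // Disjoint s.1 s.2}

/-- Diagonalisation: given countably many families of constraints, each on infinitely many points,
some set `K` violates at least one constraint of each family. -/
theorem exists_generic {ι : Type} [Countable ι] (bad : ι → Set X) (hbad : ∀ i, (bad i).Infinite)
    (o : ι → X → Option X) (ho : ∀ i, ∀ x ∈ bad i, o i x ≠ some x) :
    ∃ K : Set X, ∀ i, ∃ x ∈ bad i, ¬ ((∃ x', o i x = some x' ∧ x' ∈ K) ↔ x ∈ K) := by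
  classical
  let _ := Encodable.ofCountable ι
  -- the dense sets
  let D : ι → Set (Cond X) := fun i => {s | ∃ x ∈ bad i,
    (x ∈ s.1.1 ∧ (o i x = none ∨ ∃ x', o i x = some x' ∧ x' ∈ s.1.2)) ∨
    (x ∈ s.1.2 ∧ ∃ x', o i x = some x' ∧ x' ∈ s.1.1)}
  have hD : ∀ i, IsCofinal (D i) := by
    rintro i ⟨⟨s, t⟩, hst⟩
    simp only at hst
    obtain ⟨x, hx, hxn⟩ := (hbad i).exists_notMem_finset (s ∪ t)
    simp only [Finset.mem_union, not_or] at hxn
    rcases hox : o i x with _ | x'
    · refine ⟨⟨(insert x s, t), ?_⟩, ⟨x, hx, Or.inl ⟨by simp, Or.inl hox⟩⟩, ?_⟩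
      · exact Finset.disjoint_insert_left.2 ⟨hxn.2, hst⟩
      · exact ⟨Finset.subset_insert _ _, subset_rfl⟩
    · have hne : x' ≠ x := by
        rintro rfl
        exact ho i x' hx hox
      by_cases h1 : x' ∈ s
      · refine ⟨⟨(s, insert x t), ?_⟩, ⟨x, hx, Or.inr ⟨by simp, x', hox, h1⟩⟩, ?_⟩
        · exact Finset.disjoint_insert_right.2 ⟨hxn.1, hst⟩
        · exact ⟨subset_rfl, Finset.subset_insert _ _⟩
      · refine ⟨⟨(insert x s, insert x' t), ?_⟩, ⟨x, hx, Or.inl ⟨by simp, Or.inr ⟨x', hox, by simp⟩⟩⟩,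
          ?_⟩
        · refine Finset.disjoint_insert_left.2 ⟨?_, Finset.disjoint_insert_right.2 ⟨h1, hst⟩⟩
          simp only [Finset.mem_insert, not_or]
          exact ⟨hne.symm, hxn.2⟩
        · exact ⟨Finset.subset_insert _ _, Finset.subset_insert _ _⟩
  let 𝒟 : ι → Order.Cofinal (Cond X) := fun i => ⟨D i, hD i⟩
  let p₀ : Cond X := ⟨(∅, ∅), by simp⟩
  let I := Order.idealOfCofinals p₀ 𝒟
  let K : Set X := {x | ∃ s ∈ I, x ∈ s.1.1}
  have hK : ∀ s ∈ I, ∀ x ∈ s.1.2, x ∉ K := by
    rintro s hs x hx ⟨t, ht, hxt⟩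
    obtain ⟨u, _, hsu, htu⟩ := I.directed s hs t ht
    have h1 : x ∈ u.1.2 := hsu.2 hx
    have h2 : x ∈ u.1.1 := htu.1 hxt
    exact Finset.disjoint_left.1 u.2 h2 h1
  refine ⟨K, fun i => ?_⟩
  obtain ⟨s, hs, hsI⟩ := Order.cofinal_meets_idealOfCofinals p₀ 𝒟 i
  obtain ⟨x, hx, h⟩ := (show s ∈ D i from hs)
  refine ⟨x, hx, ?_⟩
  rcases h with ⟨hx1, h⟩ | ⟨hx2, x', hox, hx'⟩
  · have hxK : x ∈ K := ⟨s, hsI, hx1⟩
    intro hiff
    obtain ⟨x', hox, hx'K⟩ := hiff.2 hxK
    rcases h with h | ⟨x'', hox', hx''⟩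
    · rw [h] at hox; simp at hox
    · rw [hox'] at hox
      simp only [Option.some.injEq] at hox
      subst hox
      exact hK s hsI _ hx'' hx'K
  · have hxK : x ∉ K := hK s hsI x hx2
    intro hiff
    exact hxK (hiff.1 ⟨x', hox, ⟨s, hsI, hx'⟩⟩)

end generic

/-! ### from the collapse to uniform padding -/

section forward

/-- decoding a string into a root `inl x` or a node `inr z` -/
def dec (s : List Bool) : List Bool ⊕ List Bool :=
  match PolyTime.p1 s with
  | [] => Sum.inl []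
  | false :: x => Sum.inl x
  | true :: z => Sum.inr z

theorem dec_false (x y : List Bool) : dec (pr (false :: x) y) = Sum.inl x := by
  simp [dec]

theorem dec_true (x y : List Bool) : dec (pr (true :: x) y) = Sum.inr x := by
  simp [dec]

theorem pt_dec : PT C dec := by
  have h1 : PT C (fun s : List Bool => List.casesOn
      (motive := fun _ => List Bool ⊕ List Bool) (PolyTime.p1 s)
      (Sum.inl []) (fun b t => (bif b then Sum.inr t else Sum.inl t))) := by
    refine PT.list_casesOn (l := fun s : List Bool => PolyTime.p1 s)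
      (g := fun _ b t => (bif b then Sum.inr t else Sum.inl t)) (by fun_prop) (by fun_prop) ?_
    fun_prop
  refine h1.congr (fun s => ?_)
  unfold dec
  rcases PolyTime.p1 s with _ | ⟨_ | _, _⟩ <;> rfl

variable {φ₀ φ₁ : List Bool × List Bool → List Bool}

/-- the union of the classes of the elements of `K` -/
def BK (φ₀ φ₁ : List Bool × List Bool → List Bool) (K : Set (List Bool)) : Set (List Bool) :=
  {z | ∃ x ∈ K, Cls φ₀ φ₁ x z}

/-- the associated cylinder -/
def AK (φ₀ φ₁ : List Bool × List Bool → List Bool) (K : Set (List Bool)) : Set (List Bool) :=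
  {s | Sum.elim (fun x => x ∈ K) (fun z => z ∈ BK φ₀ φ₁ K) (dec s)}

theorem cylinder_AK (K : Set (List Bool)) : Cylinder C (AK φ₀ φ₁ K) := by
  refine ⟨fun q => pr (PolyTime.p1 q.1) (pr q.1 q.2), fun z => (PolyTime.p1 (PolyTime.p2 z), PolyTime.p2 (PolyTime.p2 z)),
    by fun_prop, by fun_prop, ?_, ?_⟩
  · intro x y
    simp
  · intro x y
    have : dec (pr (PolyTime.p1 x) (pr x y)) = dec x := by
      unfold dec
      rw [p1_pr]
    simp only [AK, Set.mem_ofPred_eq, this]

/-- the reduction of `AK` to `BK` -/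
def redAB (φ₀ φ₁ : List Bool × List Bool → List Bool) (s : List Bool) : List Bool :=
  Sum.elim (fun x => φ₀ (x, s)) (fun z => φ₁ (z, s)) (dec s)

theorem redAB_injective (hφ : Function.Injective (Sum.elim φ₀ φ₁)) :
    Function.Injective (redAB φ₀ φ₁) := by
  intro s t h
  unfold redAB at h
  rcases hs : dec s with x | z <;> rcases ht : dec t with x' | z' <;> rw [hs, ht] at h <;>
    simp only [Sum.elim_inl, Sum.elim_inr] at h
  · have := @hφ (Sum.inl (x, s)) (Sum.inl (x', t)) h
    simp at this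
    exact this.2
  · have := @hφ (Sum.inl (x, s)) (Sum.inr (z', t)) h
    simp at this
  · have := @hφ (Sum.inr (z, s)) (Sum.inl (x', t)) h
    simp at this
  · have := @hφ (Sum.inr (z, s)) (Sum.inr (z', t)) h
    simp at this
    exact this.2

theorem redAB_mem (hφ : Function.Injective (Sum.elim φ₀ φ₁)) (K : Set (List Bool)) (s : List Bool) :
    s ∈ AK φ₀ φ₁ K ↔ redAB φ₀ φ₁ s ∈ BK φ₀ φ₁ K := by
  constructor
  · intro hs
    unfold AK at hs
    simp only [Set.mem_ofPred_eq] at hs
    unfold redAB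
    rcases h : dec s with x | z <;> rw [h] at hs <;> simp only [Sum.elim_inl, Sum.elim_inr] at hs ⊢
    · exact ⟨x, hs, Cls.root s⟩
    · obtain ⟨x, hx, hz⟩ := hs
      exact ⟨x, hx, Cls.step z s hz⟩
  · rintro ⟨x, hx, hs⟩
    unfold AK
    simp only [Set.mem_ofPred_eq]
    unfold redAB at hs
    rcases h : dec s with x' | z' <;> rw [h] at hs <;> simp only [Sum.elim_inl, Sum.elim_inr] at hs ⊢
    · generalize hw : φ₀ (x', s) = w at hs
      cases hs with
      | root y =>
        have := @hφ (Sum.inl (x', s)) (Sum.inl (x, y)) hw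
        simp at this
        rw [this.1]; exact hx
      | step z y _ =>
        have := @hφ (Sum.inl (x', s)) (Sum.inr (z, y)) hw
        simp at this
    · generalize hw : φ₁ (z', s) = w at hs
      cases hs with
      | root y =>
        have := @hφ (Sum.inr (z', s)) (Sum.inl (x, y)) hw
        simp at this
      | step z y hz =>
        have := @hφ (Sum.inr (z', s)) (Sum.inr (z, y)) hw
        simp at this
        rw [this.1]; exact ⟨x, hx, hz⟩

theorem oneEquiv_AK_BK (h₀ : PT C φ₀) (h₁ : PT C φ₁) (hφ : Function.Injective (Sum.elim φ₀ φ₁))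
    (K : Set (List Bool)) : OneEquiv C (AK φ₀ φ₁ K) (BK φ₀ φ₁ K) := by
  refine ⟨⟨redAB φ₀ φ₁, ?_, redAB_injective hφ, redAB_mem hφ K⟩,
    ⟨fun z => pr (true :: z) [], by fun_prop, ?_, ?_⟩⟩
  · unfold redAB
    exact PT.sum_elim (f := fun s x => φ₀ (x, s)) (g := fun s z => φ₁ (z, s)) pt_dec
      (h₀.comp (f := fun p : List Bool × List Bool => (p.2, p.1)) (by fun_prop))
      (h₁.comp (f := fun p : List Bool × List Bool => (p.2, p.1)) (by fun_prop))
  · intro z z' h
    have := (pr_inj.1 h).1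
    simpa using this
  · intro z
    unfold AK
    simp only [Set.mem_ofPred_eq, dec_true, Sum.elim_inr]

theorem uniformPadding_of_collapse (hC : Countable {ψ : List Bool × List Bool → List Bool // PT C ψ})
    (hcol : Collapse C) : UniformPadding C := by
  classical
  intro φ₀ φ₁ h₀ h₁ hφ
  by_contra hno
  push Not at hno
  -- the p-invertible functions
  let ι := {ψ : List Bool × List Bool → List Bool // PT C ψ ∧ ∃ g : List Bool → List Bool × List Bool,
    PT C g ∧ ∀ x y, g (ψ (x, y)) = (x, y)}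
  have hι : Countable ι := by
    refine Function.Injective.countable (f := fun i : ι => (⟨i.1, i.2.1⟩ :
      {ψ : List Bool × List Bool → List Bool // PT C ψ})) ?_
    intro i j h
    simp only [Subtype.mk.injEq] at h
    exact Subtype.ext h
  have hbad : ∀ i : ι, {x | ∃ y, ¬ Cls φ₀ φ₁ x (i.1 (x, y))}.Infinite := by
    rintro ⟨ψ, hψ, g, hg, hgψ⟩
    exact hno ψ g hψ hg hgψ
  -- choose for each bad `x` a `y`
  let yy : ι → List Bool → List Bool := fun i x =>
    if h : ∃ y, ¬ Cls φ₀ φ₁ x (i.1 (x, y)) then h.choose else []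
  have hyy : ∀ (i : ι) x, (∃ y, ¬ Cls φ₀ φ₁ x (i.1 (x, y))) → ¬ Cls φ₀ φ₁ x (i.1 (x, yy i x)) := by
    intro i x h
    simp only [yy, h, dif_pos]
    exact h.choose_spec
  let o : ι → List Bool → Option (List Bool) := fun i x =>
    if h : ∃ x', Cls φ₀ φ₁ x' (i.1 (x, yy i x)) then some h.choose else none
  have ho1 : ∀ (i : ι) x x', o i x = some x' ↔ Cls φ₀ φ₁ x' (i.1 (x, yy i x)) := by
    intro i x x'
    simp only [o]
    constructor
    · intro h
      split_ifs at h with h1
      simp only [Option.some.injEq] at h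
      rw [← h]; exact h1.choose_spec
    · intro h
      have h1 : ∃ x', Cls φ₀ φ₁ x' (i.1 (x, yy i x)) := ⟨x', h⟩
      rw [dif_pos h1]
      rw [Cls.unique hφ h h1.choose_spec]
  obtain ⟨K, hK⟩ := exists_generic (fun i : ι => {x | ∃ y, ¬ Cls φ₀ φ₁ x (i.1 (x, y))}) hbad o
    (by
      intro i x hx h
      exact hyy i x hx ((ho1 i x x).1 h))
  obtain ⟨h, hh, hh', hmem⟩ := hcol (AK φ₀ φ₁ K) (cylinder_AK K) (AK φ₀ φ₁ K) (BK φ₀ φ₁ K)
    ⟨⟨fun x => x, PT.id, fun _ _ h => h, fun _ => Iff.rfl⟩,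
      ⟨fun x => x, PT.id, fun _ _ h => h, fun _ => Iff.rfl⟩⟩ (oneEquiv_AK_BK h₀ h₁ hφ K)
  let ψ : List Bool × List Bool → List Bool := fun q => h (pr (false :: q.1) q.2)
  have hψ : PT C ψ := hh.comp (f := fun q : List Bool × List Bool => pr (false :: q.1) q.2)
    (by fun_prop)
  have hψι : PT C ψ ∧ ∃ g : List Bool → List Bool × List Bool, PT C g ∧
      ∀ x y, g (ψ (x, y)) = (x, y) := by
    refine ⟨hψ, fun z => ((PolyTime.p1 (h.symm z)).tail, PolyTime.p2 (h.symm z)), ?_, ?_⟩
    · refine PT.prodMk ?_ ?_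
      · exact PT.tail (PT.p1 hh')
      · exact PT.p2 hh'
    · intro x y
      simp [ψ]
  let i : ι := ⟨ψ, hψι⟩
  obtain ⟨x, hx, hxK⟩ := hK i
  apply hxK
  have h1 := hmem (pr (false :: x) (yy i x))
  have h2 : (pr (false :: x) (yy i x)) ∈ AK φ₀ φ₁ K ↔ x ∈ K := by
    unfold AK
    simp only [Set.mem_ofPred_eq, dec_false, Sum.elim_inl]
  rw [← h2, h1]
  unfold BK
  simp only [Set.mem_ofPred_eq]
  constructor
  · rintro ⟨x', hox, hx'⟩
    exact ⟨x', hx', (ho1 _ x x').1 hox⟩
  · rintro ⟨x', hx', hox⟩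
    exact ⟨x', (ho1 _ x x').2 hox, hx'⟩

end forward

/-! ### from uniform padding to the collapse -/

theorem cylinder_of_uniformPadding (hU : UniformPadding C) {A B : Set (List Bool)}
    (hA : Cylinder C A) (hAB : OneEquiv C A B) : Cylinder C B := by
  obtain ⟨p, gp, hp, hgp, hgp', hpA⟩ := hA
  obtain ⟨⟨f, hf, hfi, hfAB⟩, ⟨gB, hgB, hgBi, hBA⟩⟩ := hAB
  have hpi : ∀ {x y x' y' : List Bool}, p (x, y) = p (x', y') → x = x' ∧ y = y' := by
    intro x y x' y' h
    have := congrArg gp h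
    rw [hgp', hgp'] at this
    simpa using this
  let φ₀ : List Bool × List Bool → List Bool := fun q => f (p (q.1, false :: q.2))
  let φ₁ : List Bool × List Bool → List Bool := fun q => f (p (gB q.1, true :: q.2))
  have h₀ : PT C φ₀ := hf.comp (hp.comp (f := fun q : List Bool × List Bool => (q.1, false :: q.2))
    (by fun_prop))
  have h₁ : PT C φ₁ := hf.comp (hp.comp (f := fun q : List Bool × List Bool =>
    (gB q.1, true :: q.2)) (PT.prodMk (hgB.comp PT.fst') (by fun_prop)))
  have hφ : Function.Injective (Sum.elim φ₀ φ₁) := by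
    rintro (⟨x, y⟩ | ⟨x, y⟩) (⟨x', y'⟩ | ⟨x', y'⟩) h <;> simp only [Sum.elim_inl, Sum.elim_inr, φ₀, φ₁] at h
    · have := hpi (hfi h)
      simp only [List.cons.injEq, true_and] at this
      rw [this.1, this.2]
    · have := hpi (hfi h)
      simp at this
    · have := hpi (hfi h)
      simp at this
    · have := hpi (hfi h)
      simp only [List.cons.injEq, true_and] at this
      rw [hgBi this.1, this.2]
  have hcls : ∀ x z, Cls φ₀ φ₁ x z → (x ∈ A ↔ z ∈ B) := by
    intro x z h
    induction h with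
    | root y =>
      simp only [φ₀]
      rw [← hfAB, hpA]
    | step z y _ ih =>
      simp only [φ₁]
      rw [← hfAB, hpA, ← hBA, ih]
  obtain ⟨ψ, g, hψ, hg, hgψ, hfin⟩ := hU φ₀ φ₁ h₀ h₁ hφ
  -- a `w` avoiding the exceptional `x`
  obtain ⟨w, hw⟩ : ∃ w : List Bool, ∀ x, p (x, w) ∉ {x | ∃ y, ¬ Cls φ₀ φ₁ x (ψ (x, y))} := by
    have h1 : {w : List Bool | ∃ x, p (x, w) ∈ {x | ∃ y, ¬ Cls φ₀ φ₁ x (ψ (x, y))}}.Finite := by
      refine (hfin.image (fun s => (gp s).2)).subset ?_
      rintro w ⟨x, hx⟩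
      exact ⟨p (x, w), hx, by dsimp only; rw [hgp']⟩
    obtain ⟨w, hw⟩ := h1.exists_notMem
    refine ⟨w, fun x hx => hw ⟨x, hx⟩⟩
  have hmem : ∀ x y, ψ (p (x, w), y) ∈ B ↔ x ∈ A := by
    intro x y
    have h1 := hw x
    simp only [Set.mem_ofPred_eq, not_exists, not_not] at h1
    rw [← hcls _ _ (h1 y), hpA]
  refine ⟨fun q => ψ (p (gB q.1, w), pr q.1 q.2),
    fun z => (PolyTime.p1 (g z).2, PolyTime.p2 (g z).2), ?_, ?_, ?_, ?_⟩
  · refine hψ.comp (PT.prodMk (hp.comp (PT.prodMk (hgB.comp PT.fst') (by fun_prop))) (by fun_prop))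
  · exact PT.prodMk (PT.p1 hg.snd) (PT.p2 hg.snd)
  · intro x y
    simp only [hgψ, p1_pr, p2_pr]
  · intro x y
    simp only
    rw [hmem, ← hBA]

theorem collapse_of_uniformPadding (hU : UniformPadding C) : Collapse C := by
  intro A hA B B' hB hB'
  have h1 := cylinder_of_uniformPadding hU hA hB
  have h2 := cylinder_of_uniformPadding hU hA hB'
  obtain ⟨⟨f, hf, -, hf'⟩, ⟨g, hg, -, hg'⟩⟩ := hB
  obtain ⟨⟨f₂, hf₂, -, hf₂'⟩, ⟨g₂, hg₂, -, hg₂'⟩⟩ := hB'
  refine pIso_of_cylinders h1 h2 ⟨fun x => f₂ (g x), hf₂.comp hg, fun x => ?_⟩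
    ⟨fun x => f (g₂ x), hf.comp hg₂, fun x => ?_⟩
  · rw [hg', hf₂']
  · rw [hg₂', hf']

/-- Every cylindrical 1-degree collapses if and only if uniform padding holds. -/
theorem collapse_iff (hC : Countable {ψ : List Bool × List Bool → List Bool // PT C ψ}) :
    Collapse C ↔ UniformPadding C :=
  ⟨uniformPadding_of_collapse hC, collapse_of_uniformPadding⟩

end Pool.Agent.Cyl
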