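import Pool.Agent.RelPoly.Strings

/-!
# Cylinders, 1-degrees and p-isomorphism, relative to a class of functions `C`
-/

namespace Pool.Agent.Cyl

open Pool.Agent.PolyTime Pool.Agent.RelPoly

/-- `A` is 1-reducible to `B` (with reductions in `C`). -/
def Red1 (C : PCl) (A B : Set (List Bool)) : Prop :=
  ∃ f : List Bool → List Bool, PT C f ∧ Function.Injective f ∧ ∀ x, x ∈ A ↔ f x ∈ B

/-- `A` and `B` are 1-equivalent, that is, they have the same 1-degree. -/
def OneEquiv (C : PCl) (A B : Set (List Bool)) : Prop := Red1 C A B ∧ Red1 C B A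

/-- `A` and `B` are p-isomorphic: some bijection `h` with `h` and its inverse computable in `C`
maps `A` onto `B`. -/
def PIso (C : PCl) (A B : Set (List Bool)) : Prop :=
  ∃ h : List Bool ≃ List Bool, PT C (fun x => h x) ∧ PT C (fun x => h.symm x) ∧
    ∀ x, x ∈ A ↔ h x ∈ B

/-- `A` is a cylinder: it has a padding function `p` that is p-invertible. -/
def Cylinder (C : PCl) (A : Set (List Bool)) : Prop :=
  ∃ (p : List Bool × List Bool → List Bool) (g : List Bool → List Bool × List Bool),
    PT C p ∧ PT C g ∧ (∀ x y, g (p (x, y)) = (x, y)) ∧ ∀ x y, p (x, y) ∈ A ↔ x ∈ A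

/-- Every cylindrical 1-degree collapses: any two sets in the 1-degree of a cylinder are
p-isomorphic. -/
def Collapse (C : PCl) : Prop :=
  ∀ A, Cylinder C A → ∀ B B', OneEquiv C A B → OneEquiv C A B' → PIso C B B'

end Pool.Agent.Cyl
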