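import Pool.Agent.Helper49.Cyl.Char

/-!
# Uniform padding solves the Lossy Code problem
-/

namespace Pool.Agent.Cyl

open Pool.Agent.PolyTime Pool.Agent.RelPoly

variable {C : PCl}

/-- The Lossy Code problem is easy: whenever `c` and `d` are computable in `C` and `c (x, ·)` maps
strings of length `n + 1` to strings of length `n`, there is a function in `C` which finds, given
`x` and `n` (in unary), a string `r` of length `n + 1` with `d (x, c (x, r)) ≠ r`. -/
def LossyCodeEasy (C : PCl) : Prop :=
  ∀ c d : List Bool × List Bool → List Bool, PT C c → PT C d →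
    (∀ x b r, (c (x, b :: r)).length = r.length) →
    ∃ s : List Bool × List Bool → List Bool, PT C s ∧
      ∀ x n, (s (x, List.replicate n true)).length = n + 1 ∧
        d (x, c (x, s (x, List.replicate n true))) ≠ s (x, List.replicate n true)

section chain

variable (c d : List Bool × List Bool → List Bool) (x : List Bool)

/-- One step of the chained compression. -/
def chStep (b : Bool) (st : List Bool ⊕ List Bool) : List Bool ⊕ List Bool :=
  Sum.elim (fun h => if d (x, c (x, b :: h)) = b :: h then Sum.inl (c (x, b :: h))
    else Sum.inr (b :: h)) (fun r => Sum.inr r) st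

/-- The chained compression of `s`, to a string of length `n`, or the first failure. -/
def chain (n : ℕ) (s : List Bool) : List Bool ⊕ List Bool :=
  s.foldr (chStep c d x) (Sum.inl (List.replicate n false))

variable {c d x}

theorem chain_spec (hlen : ∀ x b r, (c (x, b :: r)).length = r.length) (n : ℕ) (s : List Bool) :
    Sum.elim (fun h : List Bool => h.length = n)
      (fun r : List Bool => r.length = n + 1 ∧ d (x, c (x, r)) ≠ r) (chain c d x n s) := by
  induction s with
  | nil => simp [chain]
  | cons b s ih =>
    unfold chain at ih ⊢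
    rw [List.foldr_cons]
    rcases h : List.foldr (chStep c d x) (Sum.inl (List.replicate n false)) s with h' | r
    · rw [h] at ih
      simp only [Sum.elim_inl] at ih
      unfold chStep
      simp only [Sum.elim_inl]
      split_ifs with h1
      · simp only [Sum.elim_inl]
        rw [hlen, ih]
      · simp only [Sum.elim_inr, List.length_cons]
        exact ⟨by rw [ih], h1⟩
    · rw [h] at ih
      unfold chStep
      simpa using ih

theorem chain_inj {n : ℕ} {s s' h : List Bool} (hs : chain c d x n s = Sum.inl h)
    (hs' : chain c d x n s' = Sum.inl h) (hl : s.length = s'.length) : s = s' := by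
  induction s generalizing s' h with
  | nil =>
    rw [List.length_nil] at hl
    exact (List.length_eq_zero_iff.1 hl.symm).symm
  | cons b s ih =>
    cases s' with
    | nil => simp at hl
    | cons b' s' =>
      unfold chain at hs hs' ih
      rw [List.foldr_cons] at hs hs'
      rcases e : List.foldr (chStep c d x) (Sum.inl (List.replicate n false)) s with h1 | r
      · rcases e' : List.foldr (chStep c d x) (Sum.inl (List.replicate n false)) s' with h1' | r'
        · rw [e] at hs
          rw [e'] at hs'
          unfold chStep at hs hs'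
          simp only [Sum.elim_inl] at hs hs'
          split_ifs at hs hs' with h2 h3
          simp only [Sum.inl.injEq] at hs hs'
          rw [hs] at h2
          rw [hs'] at h3
          rw [h2] at h3
          simp only [List.cons.injEq] at h3
          obtain ⟨rfl, rfl⟩ := h3
          rw [ih e e' (by simpa using hl)]
        · rw [e'] at hs'
          simp [chStep] at hs'
      · rw [e] at hs
        simp [chStep] at hs

theorem pt_chain (hc : PT C c) (hd : PT C d) (hlen : ∀ x b r, (c (x, b :: r)).length = r.length)
    {α : Type} [PEnc α] {X U s : α → List Bool} (hX : PT C X) (hU : PT C U) (hs : PT C s) :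
    PT C (fun a => chain c d (X a) (U a).length (s a)) := by
  unfold chain
  refine PT.foldr (h := fun a b st => chStep c d (X a) b st) (B := fun a => 3 * size (U a) + 10)
    hs ?_ ?_ ?_ ?_
  · refine PT.inl ?_
    exact PT.replicate (n := fun a => (U a).length) (f := fun _ => false) hU.length
      (pbd_length hU) (by fun_prop)
  · have h1 : PT C (fun q : (α × Bool × (List Bool ⊕ List Bool)) × List Bool =>
        (X q.1.1, q.1.2.1 :: q.2)) :=
      PT.prodMk (hX.comp (by fun_prop)) (by fun_prop)
    have h2 := hc.comp h1
    have h3 := hd.comp (PT.prodMk (hX.comp (f := fun q : (α × Bool × (List Bool ⊕ List Bool)) × List Bool =>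
        q.1.1) (by fun_prop)) h2)
    unfold chStep
    refine PT.sum_elim (by fun_prop) ?_ (by fun_prop)
    refine PT.ite ?_ (PT.inl h2) (by fun_prop)
    exact PT.decideEq h3 (by fun_prop)
  · exact ((PBd.const 3).mul hU.pbd).add (PBd.const 10)
  · intro a i
    have h1 := chain_spec (x := X a) (d := d) hlen (U a).length ((s a).drop i)
    unfold chain at h1
    rcases h : List.foldr (chStep c d (X a)) (Sum.inl (List.replicate (U a).length false))
      ((s a).drop i) with h' | r
    · rw [h] at h1
      simp only [Sum.elim_inl] at h1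
      rw [size_inl, size_list_bool, size_list_bool]
      omega
    · rw [h] at h1
      simp only [Sum.elim_inr] at h1
      rw [size_inr, size_list_bool, size_list_bool]
      omega

/-- The one-one function built from a compression scheme: short code if everything is
compressible, long code otherwise. -/
def Ek (c d : List Bool × List Bool → List Bool) (κ s : List Bool) : List Bool :=
  Sum.elim (fun h => if Nat.size s.length ≤ κ.length then
      false :: pr κ (pr h (Nat.bits s.length)) else true :: pr κ s)
    (fun _ => true :: pr κ s) (chain c d (PolyTime.p1 κ) (PolyTime.p2 κ).length s)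

theorem pt_Ek (hc : PT C c) (hd : PT C d) (hlen : ∀ x b r, (c (x, b :: r)).length = r.length) :
    PT C (fun q : List Bool × List Bool => Ek c d q.1 q.2) := by
  unfold Ek
  refine PT.sum_elim (pt_chain hc hd hlen (by fun_prop) (by fun_prop) (by fun_prop)) ?_ (by fun_prop)
  refine PT.ite ?_ ?_ ?_
  all_goals fun_prop

theorem Ek_cases (c d : List Bool × List Bool → List Bool) (κ s : List Bool) :
    (Ek c d κ s = true :: pr κ s ∧ (¬ Nat.size s.length ≤ κ.length ∨
      ∃ r, chain c d (PolyTime.p1 κ) (PolyTime.p2 κ).length s = Sum.inr r)) ∨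
    ∃ h, chain c d (PolyTime.p1 κ) (PolyTime.p2 κ).length s = Sum.inl h ∧
      Nat.size s.length ≤ κ.length ∧ Ek c d κ s = false :: pr κ (pr h (Nat.bits s.length)) := by
  unfold Ek
  rcases e : chain c d (PolyTime.p1 κ) (PolyTime.p2 κ).length s with h | r
  · simp only [Sum.elim_inl]
    by_cases h1 : Nat.size s.length ≤ κ.length
    · right
      exact ⟨h, rfl, h1, by rw [if_pos h1]⟩
    · left
      exact ⟨by rw [if_neg h1], Or.inl h1⟩
  · left
    exact ⟨rfl, Or.inr ⟨r, rfl⟩⟩

theorem Ek_key (c d : List Bool × List Bool → List Bool) (κ s : List Bool) :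
    PolyTime.p1 (Ek c d κ s).tail = κ := by
  rcases Ek_cases c d κ s with ⟨h, -⟩ | ⟨h', -, -, h⟩ <;> rw [h] <;> simp

theorem Ek_inj {κ κ' s s' : List Bool} (h : Ek c d κ s = Ek c d κ' s') : κ = κ' ∧ s = s' := by
  have hκ : κ = κ' := by
    have := congrArg (fun t => PolyTime.p1 (List.tail t)) h
    simpa only [Ek_key] using this
  subst hκ
  refine ⟨rfl, ?_⟩
  rcases Ek_cases c d κ s with ⟨h1, -⟩ | ⟨t, h2, -, h1⟩ <;>
    rcases Ek_cases c d κ s' with ⟨h1', -⟩ | ⟨t', h2', -, h1'⟩ <;> rw [h1, h1'] at h
  · simp only [List.cons.injEq, true_and, pr_inj] at h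
    exact h
  · simp at h
  · simp at h
  · simp only [List.cons.injEq, true_and, pr_inj] at h
    obtain ⟨rfl, h4⟩ := h
    exact chain_inj h2 h2' (bits_injective h4)

end chain

theorem exists_pow_lt (K : ℕ) : ∃ M, ∀ n, M ≤ n → (3 * n + 2) ^ K < 2 ^ n := by
  have h1 := tendsto_pow_const_div_const_pow_of_one_lt K (r := (2 : ℝ)) (by norm_num)
  have h2 : ∀ᶠ n : ℕ in Filter.atTop, (n : ℝ) ^ K / 2 ^ n < 1 / 5 ^ K :=
    h1.eventually (gt_mem_nhds (by positivity))
  obtain ⟨M, hM⟩ := Filter.eventually_atTop.1 h2
  refine ⟨max M 1, fun n hn => ?_⟩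
  have h3 := hM n (le_trans (le_max_left _ _) hn)
  have hn1 : 1 ≤ n := le_trans (le_max_right _ _) hn
  have h4 : (3 * n + 2) ^ K ≤ (5 * n) ^ K := Nat.pow_le_pow_left (by omega) _
  have h5 : ((5 * n : ℕ) : ℝ) ^ K < 2 ^ n := by
    rw [div_lt_div_iff₀ (by positivity) (by positivity)] at h3
    push_cast
    rw [mul_pow]
    linarith
  have h6 : (5 * n) ^ K < 2 ^ n := by exact_mod_cast h5
  omega

/-- pigeonhole: a compression to shorter strings has a failure -/
theorem exists_failure {c d : List Bool × List Bool → List Bool}
    (hlen : ∀ x b r, (c (x, b :: r)).length = r.length) (x : List Bool) (n : ℕ) :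
    ∃ r : List Bool, r.length = n + 1 ∧ d (x, c (x, r)) ≠ r := by
  by_contra hno
  push Not at hno
  have hl : ∀ r : List Bool, r.length = n + 1 → (c (x, r)).length = n := by
    intro r hr
    cases r with
    | nil => simp at hr
    | cons b r =>
      rw [hlen]
      simpa using hr
  let F : List.Vector Bool (n + 1) → List.Vector Bool n := fun r => ⟨c (x, r.1), hl r.1 r.2⟩
  have hF : Function.Injective F := by
    intro r r' h
    have h1 : c (x, r.1) = c (x, r'.1) := congrArg Subtype.val h
    have h2 := hno r.1 r.2
    have h3 := hno r'.1 r'.2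
    rw [h1, h3] at h2
    exact Subtype.ext h2.symm
  have := Fintype.card_le_of_injective F hF
  rw [card_vector, card_vector, Fintype.card_bool] at this
  rw [pow_succ] at this
  have h4 : 0 < 2 ^ n := by positivity
  omega

theorem lossyCode_of_uniformPadding (hU : UniformPadding C) : LossyCodeEasy C := by
  classical
  intro c d hc hd hlen
  have hE := pt_Ek hc hd hlen
  let φ₀ : List Bool × List Bool → List Bool := fun q => Ek c d q.1 (false :: q.2)
  let φ₁ : List Bool × List Bool → List Bool := fun q => Ek c d (PolyTime.p1 q.1.tail) (true :: pr q.1 q.2)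
  have h₀ : PT C φ₀ := hE.comp (f := fun q : List Bool × List Bool => (q.1, false :: q.2))
    (by fun_prop)
  have h₁ : PT C φ₁ := hE.comp (f := fun q : List Bool × List Bool =>
    (PolyTime.p1 q.1.tail, true :: pr q.1 q.2)) (by fun_prop)
  have hφ : Function.Injective (Sum.elim φ₀ φ₁) := by
    rintro (⟨x, y⟩ | ⟨x, y⟩) (⟨x', y'⟩ | ⟨x', y'⟩) h <;>
      simp only [Sum.elim_inl, Sum.elim_inr, φ₀, φ₁] at h
    · have := Ek_inj h
      simp only [List.cons.injEq, true_and] at this
      rw [this.1, this.2]
    · have := Ek_inj h
      simp at this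
    · have := Ek_inj h
      simp at this
    · have := Ek_inj h
      simp only [List.cons.injEq, true_and, pr_inj] at this
      rw [this.2.1, this.2.2]
  have hcls : ∀ x z, Cls φ₀ φ₁ x z → PolyTime.p1 z.tail = x ∧ ∃ s, z = Ek c d x s := by
    intro x z h
    induction h with
    | root y => exact ⟨Ek_key _ _ _ _, _, rfl⟩
    | step z y _ ih =>
      simp only [φ₁]
      rw [ih.1]
      exact ⟨Ek_key _ _ _ _, _, rfl⟩
  obtain ⟨ψ, g, hψ, hg, hgψ, hfin⟩ := hU φ₀ φ₁ h₀ h₁ hφ
  obtain ⟨k, hk⟩ := hg.pbd
  dsimp only at hk
  let ext : List Bool → List Bool := fun κ => κ ++ (κ ++ (κ ++ (κ ++ (κ ++ List.replicate 10 true))))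
  have hext : PT C ext := by fun_prop
  have hextl : ∀ κ, size (ext κ) = 3 * (5 * κ.length + 10) := by
    intro κ
    rw [size_list_bool]
    simp only [ext, List.length_append, List.length_replicate]
    ring
  let y₀ : List Bool → List Bool := fun κ => (List.replicate ((size (ext κ) + 2) ^ k) ()).map
    (fun _ => true)
  have hy₀ : PT C y₀ := (PT.ones k).comp hext
  have hy₀l : ∀ κ, (y₀ κ).length = (size (ext κ) + 2) ^ k := by
    intro κ
    simp [y₀]
  let z : List Bool → List Bool := fun κ => ψ (κ, y₀ κ)
  have hz : PT C z := hψ.comp (PT.prodMk PT.id hy₀)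
  have hzlong : ∀ κ, 5 * κ.length + 10 < (z κ).length := by
    intro κ
    by_contra hle
    push Not at hle
    have h1 := hk (z κ)
    simp only [z] at h1 hle
    rw [hgψ, size_pair, size_list_bool, size_list_bool, size_list_bool, hy₀l, hextl] at h1
    have h2 : (3 * (ψ (κ, y₀ κ)).length + 2) ^ k ≤ (3 * (5 * κ.length + 10) + 2) ^ k :=
      Nat.pow_le_pow_left (by omega) _
    omega
  obtain ⟨K, hK⟩ := hz.pbd
  dsimp only at hK
  obtain ⟨M, hM⟩ := exists_pow_lt K
  -- the failure found from `z κ`
  let ch : List Bool × List Bool → List Bool ⊕ List Bool := fun q =>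
    chain c d q.1 q.2.length (PolyTime.p2 (z (pr q.1 q.2)).tail)
  have hch : PT C ch := by
    refine pt_chain hc hd hlen (by fun_prop) (by fun_prop) ?_
    exact PT.p2 (PT.tail (hz.comp (f := fun q : List Bool × List Bool => pr q.1 q.2) (by fun_prop)))
  let s : List Bool × List Bool → List Bool := fun q => Sum.elim (fun _ => []) (fun r => r) (ch q)
  have hs : PT C s := PT.sum_elim (f := fun _ _ => []) (g := fun _ r => r) hch (by fun_prop)
    (by fun_prop)
  let good : List Bool × List Bool → List Bool → Prop := fun q r =>
    r.length = q.2.length + 1 ∧ d (q.1, c (q.1, r)) ≠ r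
  have hgood : ∀ q, pr q.1 q.2 ∉ {x | ∃ y, ¬ Cls φ₀ φ₁ x (ψ (x, y))} → M ≤ (pr q.1 q.2).length →
      good q (s q) := by
    rintro ⟨x, u⟩ hq hMq
    simp only [Set.mem_ofPred_eq, not_exists, not_not] at hq
    dsimp only at hMq
    obtain ⟨-, w, hw⟩ := hcls _ _ (hq (y₀ (pr x u)))
    have hlong := hzlong (pr x u)
    have hzw : z (pr x u) = Ek c d (pr x u) w := hw
    rcases Ek_cases c d (pr x u) w with ⟨h1, h2⟩ | ⟨h, h2, h3, h1⟩
    · rw [h1] at hzw
      have h4 : (w.length : ℕ) < 2 ^ (pr x u).length := by
        have h5 := hK (pr x u)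
        rw [hzw, size_list_bool, size_list_bool, List.length_cons, length_pr] at h5
        have h6 := hM _ hMq
        omega
      have h5 : Nat.size w.length ≤ (pr x u).length := Nat.size_le.2 h4
      rcases h2 with h2 | ⟨r, hr⟩
      · exact absurd h5 h2
      · rw [p1_pr, p2_pr] at hr
        have h6 : ch (x, u) = Sum.inr r := by
          simp only [ch]
          rw [hzw]
          simp only [List.tail_cons, p2_pr]
          exact hr
        have h7 := chain_spec (x := x) (d := d) hlen u.length w
        rw [hr] at h7
        simp only [Sum.elim_inr] at h7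
        simp only [good, s, h6, Sum.elim_inr]
        exact h7
    · exfalso
      rw [h1] at hzw
      rw [hzw] at hlong
      have h7 := chain_spec (x := PolyTime.p1 (pr x u)) (d := d) hlen (PolyTime.p2 (pr x u)).length w
      rw [h2] at h7
      simp only [Sum.elim_inl, p2_pr] at h7
      have h8 : (Nat.bits w.length).length = Nat.size w.length := Nat.size_eq_bits_len _
      rw [List.length_cons, length_pr (pr x u), length_pr h, h7, h8] at hlong
      rw [length_pr] at hlong h3
      omega
  have hex : ∀ q, ∃ r, good q r := fun q => exists_failure hlen q.1 q.2.length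
  let s' : List Bool × List Bool → List Bool := fun q => if good q (s q) then s q else (hex q).choose
  have hs' : PT C s' := by
    refine PT.of_finite hs s' ?_
    have h1 : {q | s q ≠ s' q} ⊆ (fun q : List Bool × List Bool => pr q.1 q.2) ⁻¹'
        ({x | ∃ y, ¬ Cls φ₀ φ₁ x (ψ (x, y))} ∪ {κ : List Bool | κ.length < M}) := by
      intro q hq
      by_contra hq'
      simp only [Set.mem_preimage, Set.mem_union, not_or] at hq'
      apply hq
      have h2 := hgood q hq'.1 (by
        have := hq'.2
        simp only [Set.mem_ofPred_eq, not_lt] at this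
        exact this)
      simp only [s', h2, if_true]
    refine Set.Finite.subset (Set.Finite.preimage ?_ (hfin.union (List.finite_length_lt Bool M))) h1
    rintro ⟨x, u⟩ _ ⟨x', u'⟩ _ h
    simp only [pr_inj] at h
    rw [h.1, h.2]
  refine ⟨s', hs', fun x n => ?_⟩
  have h1 : good (x, List.replicate n true) (s' (x, List.replicate n true)) := by
    simp only [s']
    split_ifs with h
    · exact h
    · exact (hex _).choose_spec
  simp only [good, List.length_replicate] at h1
  exact h1

end Pool.Agent.Cyl
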