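import Pool.Agent.Helper49.Cyl.Lossy

/-!
# P = UP and an easy Lossy Code problem imply uniform padding
-/

namespace Pool.Agent.Cyl

open Pool.Agent.PolyTime Pool.Agent.RelPoly

variable {C : PCl}

/-- `L` is decidable in `C`. -/
def InPC (C : PCl) (L : Set (List Bool)) : Prop :=
  ∃ f : List Bool → Bool, PT C f ∧ ∀ x, f x = true ↔ x ∈ L

/-- `L` has a verifier in `C` with polynomially long certificates. -/
def InNPC (C : PCl) (L : Set (List Bool)) : Prop :=
  ∃ (V : List Bool × List Bool → Bool) (k : ℕ), PT C V ∧
    ∀ x, x ∈ L ↔ ∃ w : List Bool, w.length ≤ (x.length + 2) ^ k ∧ V (x, w) = true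

/-- `L` has a verifier in `C` with polynomially long certificates, and certificates are unique. -/
def InUPC (C : PCl) (L : Set (List Bool)) : Prop :=
  ∃ (V : List Bool × List Bool → Bool) (k : ℕ), PT C V ∧
    (∀ x, x ∈ L ↔ ∃ w : List Bool, w.length ≤ (x.length + 2) ^ k ∧ V (x, w) = true) ∧
    ∀ x w w' : List Bool, w.length ≤ (x.length + 2) ^ k → w'.length ≤ (x.length + 2) ^ k →
      V (x, w) = true → V (x, w') = true → w = w'

/-- P = UP -/
def PeqUP (C : PCl) : Prop := ∀ L, InUPC C L → InPC C L

/-- P = NP -/
def PeqNP (C : PCl) : Prop := ∀ L, InNPC C L → InPC C L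

section search

variable (φ : List Bool × List Bool → List Bool)

/-- `v` is the code of a preimage of `z` -/
def IsPre (z v : List Bool) : Prop :=
  pr (PolyTime.p1 v) (PolyTime.p2 v) = v ∧ φ (PolyTime.p1 v, PolyTime.p2 v) = z

instance (z v : List Bool) : Decidable (IsPre φ z v) := by
  unfold IsPre
  infer_instance

variable {φ}

theorem IsPre.unique (hφ : Function.Injective φ) {z v v' : List Bool} (h : IsPre φ z v)
    (h' : IsPre φ z v') : v = v' := by
  have h1 := hφ (h.2.trans h'.2.symm)
  simp only [Prod.mk.injEq] at h1
  rw [← h.1, ← h'.1, h1.1, h1.2]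

theorem isPre_pr (x y : List Bool) : IsPre φ (φ (x, y)) (pr x y) := by
  simp [IsPre]

theorem pt_isPre (h : PT C φ) {α : Type} [PEnc α] {Z V : α → List Bool} (hZ : PT C Z)
    (hV : PT C V) : PT C (fun a => decide (IsPre φ (Z a) (V a))) := by
  unfold IsPre
  refine PT.decide_and (PT.decideEq (by fun_prop) hV) (PT.decideEq ?_ hZ)
  exact h.comp (by fun_prop)

/-- the search language -/
def SL (φ : List Bool × List Bool → List Bool) : Set (List Bool) :=
  {s | ∃ w : List Bool, w.length ≤ (PolyTime.p2 (PolyTime.p2 s)).length ∧
    IsPre φ (PolyTime.p1 s) (PolyTime.p1 (PolyTime.p2 s) ++ w)}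

theorem inUP_SL (h : PT C φ) (hφ : Function.Injective φ) : InUPC C (SL φ) := by
  refine ⟨fun q => decide (q.2.length ≤ (PolyTime.p2 (PolyTime.p2 q.1)).length ∧
    IsPre φ (PolyTime.p1 q.1) (PolyTime.p1 (PolyTime.p2 q.1) ++ q.2)), 1, ?_, ?_, ?_⟩
  · refine PT.decide_and (by fun_prop) ?_
    exact pt_isPre h (by fun_prop) (by fun_prop)
  · intro s
    constructor
    · rintro ⟨w, h1, h2⟩
      refine ⟨w, ?_, by simpa using ⟨h1, h2⟩⟩
      have h3 := length_p2_le s
      have h4 := length_p2_le (PolyTime.p2 s)
      rw [pow_one]
      omega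
    · rintro ⟨w, -, h2⟩
      exact ⟨w, by simpa using h2⟩
  · intro s w w' _ _ h1 h2
    simp only [decide_eq_true_eq] at h1 h2
    have := h1.2.unique hφ h2.2
    exact List.append_cancel_left this

/-- one step of the prefix search -/
def srStep (φ : List Bool × List Bool → List Bool) (f : List Bool → Bool) (z u v : List Bool) :
    List Bool :=
  if IsPre φ z v then v else if f (pr z (pr (v ++ [false]) u)) = true then v ++ [false]
    else v ++ [true]

theorem srStep_length (f : List Bool → Bool) (z u v : List Bool) :
    (srStep φ f z u v).length ≤ v.length + 1 := by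
  unfold srStep
  split_ifs <;> simp

theorem srStep_iter_length (f : List Bool → Bool) (z u : List Bool) (i : ℕ) :
    ((srStep φ f z u)^[i] []).length ≤ i := by
  induction i with
  | zero => simp
  | succ i ih =>
    rw [Function.iterate_succ_apply']
    exact (srStep_length f z u _).trans (by omega)

theorem srStep_spec {f : List Bool → Bool} (hf : ∀ s, f s = true ↔ s ∈ SL φ)
    (hφ : Function.Injective φ) {z u W : List Bool} (hW : IsPre φ z W) (hu : W.length ≤ u.length)
    (i : ℕ) : (srStep φ f z u)^[i] [] = W.take i := by
  induction i with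
  | zero => simp
  | succ i ih =>
    rw [Function.iterate_succ_apply', ih]
    unfold srStep
    split_ifs with h1 h2
    · have h3 := h1.unique hφ hW
      rw [h3]
      have h4 : W.length ≤ i := by
        have := congrArg List.length h3
        rw [List.length_take] at this
        omega
      rw [List.take_of_length_le (by omega)]
    · have hlt : i < W.length := by
        by_contra hge
        rw [List.take_of_length_le (by omega)] at h1
        exact h1 hW
      obtain ⟨w, -, hw⟩ := (hf _).1 h2
      simp only [p1_pr, p2_pr] at hw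
      have h3 := hw.unique hφ hW
      have h4 : (List.take i W ++ [false]).length = i + 1 := by
        rw [List.length_append, List.length_take]
        simp
        omega
      have h5 := congrArg (List.take (i + 1)) h3
      rwa [← h4, List.take_left, h4] at h5
    · have hlt : i < W.length := by
        by_contra hge
        rw [List.take_of_length_le (by omega)] at h1
        exact h1 hW
      rw [List.take_succ_eq_append_getElem hlt]
      congr 2
      by_contra hb
      have hb' : W[i] = false := by
        cases hc : W[i] with
        | true => exact absurd hc.symm hb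
        | false => rfl
      apply h2
      rw [hf]
      refine ⟨W.drop (i + 1), ?_, ?_⟩
      · simp only [p2_pr, List.length_drop]
        omega
      · simp only [p1_pr, p2_pr]
        have h3 : W.take i ++ [false] ++ W.drop (i + 1) = W := by
          rw [← hb', ← List.take_succ_eq_append_getElem hlt, List.take_append_drop]
        rw [h3]
        exact hW

/-- If P = UP then one-one functions can be inverted, on preimages of bounded length. -/
theorem exists_inverse (hUP : PeqUP C) (h : PT C φ) (hφ : Function.Injective φ) :
    ∃ inv : List Bool × List Bool → List Bool, PT C inv ∧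
      ∀ x y u : List Bool, (pr x y).length ≤ u.length → inv (φ (x, y), u) = pr x y := by
  obtain ⟨f, hf, hf'⟩ := hUP _ (inUP_SL h hφ)
  refine ⟨fun q => (srStep φ f q.1 q.2)^[q.2.length] [], ?_, ?_⟩
  · refine PT.iterate (C := C) (f := fun (q : List Bool × List Bool) (v : List Bool) =>
      srStep φ f q.1 q.2 v) (n := fun q => q.2.length)
      (g := fun _ => []) (B := fun q => 3 * q.2.length) ?_ (by fun_prop) ?_ (by fun_prop) ?_ ?_
    · unfold srStep
      refine PT.ite (pt_isPre h (by fun_prop) (by fun_prop)) (by fun_prop)
        (PT.ite ?_ (by fun_prop) (by fun_prop))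
      exact PT.decide_bool (hf.comp (by fun_prop))
    · exact pbd_length (C := C) (by fun_prop)
    · exact (PBd.const 3).mul (pbd_length (C := C) (by fun_prop))
    · intro q i hi
      rw [size_list_bool]
      have := srStep_iter_length (φ := φ) f q.1 q.2 i
      change 3 * ((srStep φ f q.1 q.2)^[i] []).length ≤ _
      omega
  · intro x y u hu
    dsimp only
    rw [srStep_spec hf' hφ (isPre_pr x y) hu, List.take_of_length_le hu]

end search

theorem uniformPadding_of_lossyCode (hUP : PeqUP C) (hLC : LossyCodeEasy C) : UniformPadding C := by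
  intro φ₀ φ₁ h₀ h₁ hφ
  have hφ₀ : Function.Injective φ₀ := fun a b h => by
    have := @hφ (Sum.inl a) (Sum.inl b) h
    simpa using this
  obtain ⟨inv, hinv, hinv'⟩ := exists_inverse hUP h₀ hφ₀
  -- the value of `φ₀`
  let zz : List Bool × List Bool → List Bool := fun q => φ₀ (PolyTime.p1 q.1, pr (PolyTime.p2 q.1) q.2)
  have hzz : PT C zz := h₀.comp (by fun_prop)
  let c : List Bool × List Bool → List Bool := fun q =>
    if 2 * (zz q).length + 1 ≤ q.2.length - 1 then
      pr (zz q) (List.replicate (q.2.length - 1 - (2 * (zz q).length + 1)) false)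
    else List.replicate (q.2.length - 1) false
  have hb1 : PBd (fun q : List Bool × List Bool => q.2.length) := pbd_length (C := C) (by fun_prop)
  have hc : PT C c := by
    refine PT.ite (by fun_prop) (PT.pr hzz ?_) ?_
    · exact PT.replicate (n := fun q : List Bool × List Bool => q.2.length - 1 - (2 * (zz q).length + 1))
        (by fun_prop) (hb1.mono (fun q => by omega)) (by fun_prop)
    · exact PT.replicate (n := fun q : List Bool × List Bool => q.2.length - 1)
        (by fun_prop) (hb1.mono (fun q => by omega)) (by fun_prop)
  let uu : List Bool × List Bool → List Bool := fun q =>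
    q.1 ++ (q.1 ++ (q.1 ++ (q.2 ++ List.replicate 10 true)))
  let d : List Bool × List Bool → List Bool := fun q =>
    PolyTime.p2 (PolyTime.p2 (inv (PolyTime.p1 q.2, uu q)))
  have hd : PT C d := PT.p2 (PT.p2 (hinv.comp (by fun_prop)))
  have hlen : ∀ x b r, (c (x, b :: r)).length = r.length := by
    intro x b r
    simp only [c]
    split_ifs with h
    · rw [length_pr, List.length_replicate]
      simp only [List.length_cons] at h ⊢
      omega
    · simp
  obtain ⟨s, hs, hs'⟩ := hLC c d hc hd hlen
  let nn : List Bool × List Bool → ℕ := fun q => 2 * (q.1.length + q.2.length) + 2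
  have hnn : PT C nn := by fun_prop
  let rr : List Bool × List Bool → List Bool := fun q =>
    s (pr q.1 q.2, List.replicate (nn q) true)
  have hb2 : PBd nn := by
    refine PBd.add (PBd.mul (PBd.const 2) (PBd.add ?_ ?_)) (PBd.const 2)
    · exact pbd_length (C := C) (by fun_prop)
    · exact pbd_length (C := C) (by fun_prop)
  have hrr : PT C rr := hs.comp (PT.prodMk (by fun_prop)
    (PT.replicate (n := nn) hnn hb2 (by fun_prop)))
  have hrrl : ∀ q, (rr q).length = nn q + 1 := fun q => (hs' (pr q.1 q.2) (nn q)).1
  have hlong : ∀ x y, x.length + y.length < (φ₀ (x, pr y (rr (x, y)))).length := by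
    intro x y
    by_contra hle
    push Not at hle
    have h1 := (hs' (pr x y) (nn (x, y))).2
    apply h1
    change d (pr x y, c (pr x y, rr (x, y))) = rr (x, y)
    have h2 : zz (pr x y, rr (x, y)) = φ₀ (x, pr y (rr (x, y))) := by simp [zz]
    have h3 : c (pr x y, rr (x, y)) = pr (φ₀ (x, pr y (rr (x, y))))
        (List.replicate ((rr (x, y)).length - 1 - (2 * (φ₀ (x, pr y (rr (x, y)))).length + 1)) false) := by
      simp only [c]
      rw [h2, if_pos]
      rw [hrrl]
      simp only [nn]
      omega
    have h4 : (c (pr x y, rr (x, y))).length = nn (x, y) := by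
      rw [h3, length_pr, List.length_replicate, hrrl]
      simp only [nn]
      omega
    have h5 : inv (φ₀ (x, pr y (rr (x, y))), uu (pr x y, c (pr x y, rr (x, y)))) =
        pr x (pr y (rr (x, y))) := by
      apply hinv'
      simp only [uu, List.length_append, List.length_replicate]
      rw [h4, length_pr, length_pr, length_pr, hrrl]
      omega
    simp only [d]
    rw [show PolyTime.p1 (c (pr x y, rr (x, y))) = φ₀ (x, pr y (rr (x, y))) by rw [h3, p1_pr], h5,
      p2_pr, p2_pr]
  refine ⟨fun q => φ₀ (q.1, pr q.2 (rr q)), fun z =>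
    (PolyTime.p1 (inv (z, z ++ (z ++ (z ++ (z ++ List.replicate 10 true))))),
      PolyTime.p1 (PolyTime.p2 (inv (z, z ++ (z ++ (z ++ (z ++ List.replicate 10 true))))))),
      ?_, ?_, ?_, ?_⟩
  · exact h₀.comp (PT.prodMk (by fun_prop) (PT.pr (by fun_prop) hrr))
  · have h1 : PT C (fun z : List Bool => inv (z, z ++ (z ++ (z ++ (z ++ List.replicate 10 true))))) :=
      hinv.comp (by fun_prop)
    exact PT.prodMk (PT.p1 h1) (PT.p1 (PT.p2 h1))
  · intro x y
    dsimp only
    have h1 := hlong x y
    rw [hinv' x (pr y (rr (x, y)))]
    · simp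
    · rw [length_pr, length_pr, hrrl]
      simp only [List.length_append, List.length_replicate, nn]
      omega
  · convert Set.finite_empty
    ext x
    simp only [Set.mem_ofPred_eq, Set.mem_empty_iff_false, iff_false, not_exists, not_not]
    intro y
    exact Cls.root _

/-- If P = UP, then every cylindrical 1-degree collapses if and only if the Lossy Code problem is
easy. -/
theorem collapse_iff_lossyCode (hC : Countable {ψ : List Bool × List Bool → List Bool // PT C ψ})
    (hUP : PeqUP C) : Collapse C ↔ LossyCodeEasy C :=
  ⟨fun h => lossyCode_of_uniformPadding (uniformPadding_of_collapse hC h),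
    fun h => collapse_of_uniformPadding (uniformPadding_of_lossyCode hUP h)⟩

end Pool.Agent.Cyl
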